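import Mathlib
import Pool.Agent.Lib.MP_a8d5c3_co.Stab.Iff
import Pool.Agent.Lib.MP_a8d5c3_co.ExactFails

set_option autoImplicit false

namespace Pool.Agent.Results.MP_a8d5c3_co.Characterization

open Filter Topology Pool.Agent.Lib.MP_a8d5c3_co

/-- The near-extremal configurations for the joints problem are exactly the configurations that are
`o(n)`-close to the intersection lines of asymptotically generic sets of planes; and exactly generic
sets of planes do not suffice. -/
theorem result :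
    (∀ L : ℕ → Set (AffineSubspace ℝ E3), (∀ k, (L k).Finite ∧ ∀ l ∈ L k, IsLine l) →
      Tendsto (fun k => (L k).ncard) atTop atTop →
      (Tendsto (fun k => (numJoints (L k) : ℝ) / ((L k).ncard : ℝ) ^ (3 / 2 : ℝ)) atTop
          (𝓝 (√2 / 3)) ↔
        ∃ H : ℕ → Set (AffineSubspace ℝ E3), (∀ k, (H k).Finite ∧ ∀ P ∈ H k, IsPlane P) ∧
          Tendsto (fun k => ((badTriples (H k)).ncard : ℝ) / ((H k).ncard : ℝ) ^ 3) atTop (𝓝 0) ∧
          Tendsto (fun k => ((symmDiff (L k) (planeLines (H k))).ncard : ℝ) / ((L k).ncard : ℝ))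
            atTop (𝓝 0))) ∧
    ∃ L : ℕ → Set (AffineSubspace ℝ E3),
      (∀ k, (L k).Finite ∧ ∀ l ∈ L k, IsLine l) ∧
      Tendsto (fun k => (L k).ncard) atTop atTop ∧
      Tendsto (fun k => (numJoints (L k) : ℝ) / ((L k).ncard : ℝ) ^ (3 / 2 : ℝ)) atTop
        (𝓝 (√2 / 3)) ∧
      ∀ ε : ℝ, 0 < ε → ∀ᶠ k in atTop, ∀ H : Set (AffineSubspace ℝ E3), Generic H →
        (1 - ε) * ((L k).ncard : ℝ) ≤ ((symmDiff (L k) (planeLines H)).ncard : ℝ) :=
  ⟨fun L hL hn => Stab.characterization L hL hn, ExactFails.exact_genericity_fails⟩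

end Pool.Agent.Results.MP_a8d5c3_co.Characterization
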