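import Mathlib
import Pool.Agent.Lib.MP_a8d5c3_co.Defs
import Pool.Agent.Lib.MP_a8d5c3_co.GenericBound

set_option autoImplicit false

namespace Pool.Agent.Results.MP_a8d5c3_co.ExactGenericityFails

open Filter Topology Pool.Agent.Lib.MP_a8d5c3_co

theorem tendsto_inv_nat : Tendsto (fun k : ℕ => ((k : ℝ))⁻¹) atTop (𝓝 0) :=
  tendsto_inv_atTop_nhds_zero_nat

theorem two_mul_ncard (ξ : ℕ → ℝ) (s : ℕ) :
    2 * ((planeLines (Hset ξ s)).ncard : ℝ) = (s : ℝ) ^ 2 * ((s : ℝ) ^ 2 - 1) := by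
  have h := ncard_lines (ξ := ξ) (s := s)
  have h2 : 2 * (planeLines (Hset ξ s)).ncard = s * s * (s * s - 1) := by
    rw [h]
    exact Nat.mul_div_cancel' (Nat.even_mul_pred_self _).two_dvd
  rcases Nat.eq_zero_or_pos s with h0 | h0
  · subst h0
    simp at h2
    simp [h2]
  · have h3 : 1 ≤ s * s := Nat.mul_pos h0 h0
    have h4 : ((2 * (planeLines (Hset ξ s)).ncard : ℕ) : ℝ) = ((s * s * (s * s - 1) : ℕ) : ℝ) := by
      rw [h2]
    push_cast [Nat.cast_sub h3] at h4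
    rw [h4]; ring

theorem six_mul_choose (m : ℕ) : 6 * ((m.choose 3 : ℕ) : ℝ) = (m : ℝ) * (m - 1) * (m - 2) := by
  have h : (m.choose 3) * 6 = m.descFactorial 3 := by
    rw [Nat.descFactorial_eq_factorial_mul_choose, Nat.factorial]
    simp [Nat.factorial]; ring
  rcases Nat.lt_or_ge m 2 with h2 | h2
  · interval_cases m <;> simp [Nat.choose]
  · obtain ⟨k, rfl⟩ := Nat.exists_eq_add_of_le h2
    have e : (2 + k).descFactorial 3 = (2 + k) * (1 + k) * k := by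
      simp only [Nat.descFactorial]
      have h1 : 2 + k - 2 = k := by omega
      have h3 : 2 + k - 1 = 1 + k := by omega
      rw [h1, h3, Nat.sub_zero]; ring
    rw [e] at h
    have h4 : (((2 + k).choose 3 * 6 : ℕ) : ℝ) = (((2 + k) * (1 + k) * k : ℕ) : ℝ) := by rw [h]
    push_cast at h4 ⊢
    linear_combination h4

theorem tendsto_lines_ratio (ξ : ℕ → ℝ) :
    Tendsto (fun s : ℕ => ((planeLines (Hset ξ s)).ncard : ℝ) / (s : ℝ) ^ 4) atTop
      (𝓝 (1 / 2)) := by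
  have h : Tendsto (fun s : ℕ => 1 / 2 - 1 / 2 * ((s : ℝ)⁻¹) ^ 2) atTop
      (𝓝 (1 / 2 - 1 / 2 * 0 ^ 2)) :=
    tendsto_const_nhds.sub (tendsto_const_nhds.mul (tendsto_inv_nat.pow 2))
  rw [show (1 / 2 - 1 / 2 * 0 ^ 2 : ℝ) = 1 / 2 by norm_num] at h
  refine h.congr' ?_
  filter_upwards [eventually_gt_atTop 0] with s hs
  have hs' : (s : ℝ) ≠ 0 := by exact_mod_cast hs.ne'
  have h2 := two_mul_ncard ξ s
  have h3 : ((planeLines (Hset ξ s)).ncard : ℝ) = (s : ℝ) ^ 2 * ((s : ℝ) ^ 2 - 1) / 2 := by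
    linarith
  rw [h3]
  field_simp

theorem tendsto_joints_ratio {ξ : ℕ → ℝ} (hξ : LinearIndependent ℚ ξ) :
    Tendsto (fun s : ℕ => (numJoints (planeLines (Hset ξ s)) : ℝ) / (s : ℝ) ^ 6) atTop
      (𝓝 (1 / 6)) := by
  have hup : Tendsto (fun s : ℕ => 1 / 6 * (1 - (s : ℝ)⁻¹ ^ 2) * (1 - 2 * (s : ℝ)⁻¹ ^ 2)) atTop
      (𝓝 (1 / 6 * (1 - 0 ^ 2) * (1 - 2 * 0 ^ 2))) :=
    (tendsto_const_nhds.mul (tendsto_const_nhds.sub (tendsto_inv_nat.pow 2))).mul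
      (tendsto_const_nhds.sub (tendsto_const_nhds.mul (tendsto_inv_nat.pow 2)))
  rw [show (1 / 6 * (1 - 0 ^ 2) * (1 - 2 * 0 ^ 2) : ℝ) = 1 / 6 by norm_num] at hup
  have hlo : Tendsto (fun s : ℕ => 1 / 6 * (1 - (s : ℝ)⁻¹ ^ 2) * (1 - 2 * (s : ℝ)⁻¹ ^ 2) -
      (s : ℝ)⁻¹ ^ 2) atTop (𝓝 (1 / 6 - 0 ^ 2)) := hup.sub (tendsto_inv_nat.pow 2)
  rw [show (1 / 6 - 0 ^ 2 : ℝ) = 1 / 6 by norm_num] at hlo
  have hid : ∀ s : ℕ, 0 < s → (((s * s).choose 3 : ℕ) : ℝ) / (s : ℝ) ^ 6 =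
      1 / 6 * (1 - (s : ℝ)⁻¹ ^ 2) * (1 - 2 * (s : ℝ)⁻¹ ^ 2) := by
    intro s hs
    have hs' : (s : ℝ) ≠ 0 := by exact_mod_cast hs.ne'
    have h1 := six_mul_choose (s * s)
    push_cast at h1
    have h2 : (((s * s).choose 3 : ℕ) : ℝ) = ((s : ℝ) * s) * ((s : ℝ) * s - 1) *
        ((s : ℝ) * s - 2) / 6 := by linarith
    rw [h2]
    field_simp
  refine tendsto_of_tendsto_of_tendsto_of_le_of_le' hlo hup ?_ ?_
  · filter_upwards [eventually_gt_atTop 0] with s hs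
    have hs' : (0 : ℝ) < (s : ℝ) := by exact_mod_cast hs
    have h1 : (((s * s).choose 3 : ℕ) : ℝ) ≤ (numJoints (planeLines (Hset ξ s)) : ℝ) + s ^ 4 := by
      exact_mod_cast le_numJoints hξ hs
    rw [← hid s hs]
    have h2 : (s : ℝ)⁻¹ ^ 2 = (s : ℝ) ^ 4 / (s : ℝ) ^ 6 := by
      field_simp
    rw [h2, ← sub_div]
    apply div_le_div_of_nonneg_right _ (by positivity)
    linarith
  · filter_upwards [eventually_gt_atTop 0] with s hs
    have h1 : (numJoints (planeLines (Hset ξ s)) : ℝ) ≤ (((s * s).choose 3 : ℕ) : ℝ) := by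
      exact_mod_cast numJoints_le (ξ := ξ) (s := s)
    rw [← hid s hs]
    exact div_le_div_of_nonneg_right h1 (by positivity)

theorem sqrt_const : (1 / 6 : ℝ) / (1 / 2 : ℝ) ^ (3 / 2 : ℝ) = √2 / 3 := by
  have h1 : (1 / 2 : ℝ) ^ (3 / 2 : ℝ) = (1 / 2) * √(1 / 2) := by
    rw [show (3 / 2 : ℝ) = 1 + 1 / 2 by norm_num, Real.rpow_add (by norm_num), Real.rpow_one,
      ← Real.sqrt_eq_rpow]
  have h2 : √(1 / 2 : ℝ) = √2 / 2 := by
    rw [show (1 / 2 : ℝ) = 2 / 2 ^ 2 by norm_num, Real.sqrt_div (by norm_num),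
      Real.sqrt_sq (by norm_num)]
  have h3 : √2 * √2 = (2 : ℝ) := Real.mul_self_sqrt (by norm_num)
  have h4 : (0 : ℝ) < √2 := by positivity
  rw [h1, h2]
  field_simp
  nlinarith

theorem tendsto_ncard (ξ : ℕ → ℝ) :
    Tendsto (fun s : ℕ => (planeLines (Hset ξ s)).ncard) atTop atTop := by
  rw [← tendsto_natCast_atTop_iff (R := ℝ)]
  have h1 : Tendsto (fun s : ℕ => (s : ℝ) ^ 4) atTop atTop :=
    (tendsto_pow_atTop (by norm_num)).comp tendsto_natCast_atTop_atTop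
  have h2 := Tendsto.pos_mul_atTop (by norm_num : (0 : ℝ) < 1 / 2) (tendsto_lines_ratio ξ) h1
  refine h2.congr' ?_
  filter_upwards [eventually_gt_atTop 0] with s hs
  have hs' : (s : ℝ) ≠ 0 := by exact_mod_cast hs.ne'
  field_simp

/-- There is a sequence of finite sets of lines of `ℝ^3` that is asymptotically extremal for the
joints problem, and whose distance to every generic-plane configuration is asymptotically as large
as it can be. -/
theorem result : ∃ L : ℕ → Set (AffineSubspace ℝ E3),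
    (∀ k, (L k).Finite ∧ ∀ l ∈ L k, IsLine l) ∧
    Tendsto (fun k => (L k).ncard) atTop atTop ∧
    Tendsto (fun k => (numJoints (L k) : ℝ) / ((L k).ncard : ℝ) ^ (3 / 2 : ℝ)) atTop
      (𝓝 (√2 / 3)) ∧
    ∀ ε : ℝ, 0 < ε → ∀ᶠ k in atTop, ∀ H : Set (AffineSubspace ℝ E3), Generic H →
      (1 - ε) * ((L k).ncard : ℝ) ≤ ((symmDiff (L k) (planeLines H)).ncard : ℝ) := by
  obtain ⟨ξ, hξ⟩ := exists_indep
  refine ⟨fun s => planeLines (Hset ξ s), ?_, tendsto_ncard ξ, ?_, ?_⟩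
  · intro s
    refine ⟨lines_finite, ?_⟩
    intro l hl
    obtain ⟨t, u, ht, hu, htu, rfl⟩ := mem_lines_iff.mp hl
    exact isLine_line htu.ne
  · have h1 : Tendsto (fun s : ℕ => (((planeLines (Hset ξ s)).ncard : ℝ) / (s : ℝ) ^ 4) ^
        (3 / 2 : ℝ)) atTop (𝓝 ((1 / 2) ^ (3 / 2 : ℝ))) :=
      (tendsto_lines_ratio ξ).rpow_const (Or.inl (by norm_num))
    have h2 := (tendsto_joints_ratio hξ).div h1 (by positivity)
    rw [sqrt_const] at h2
    refine h2.congr' ?_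
    filter_upwards [eventually_gt_atTop 0] with s hs
    have hs' : (0 : ℝ) < (s : ℝ) := by exact_mod_cast hs
    simp only [Pi.div_apply]
    rw [Real.div_rpow (by positivity) (by positivity)]
    have h3 : ((s : ℝ) ^ 4) ^ (3 / 2 : ℝ) = (s : ℝ) ^ 6 := by
      rw [← Real.rpow_natCast, ← Real.rpow_natCast, ← Real.rpow_mul hs'.le]
      norm_num
    rw [h3]
    have h6 : ((s : ℝ) ^ 6) ≠ 0 := by positivity
    rw [div_div_div_cancel_right₀ h6]
  · intro ε hε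
    -- the error is `O(s^3)`
    have h1 : Tendsto (fun s : ℕ => ε * (((planeLines (Hset ξ s)).ncard : ℝ) / (s : ℝ) ^ 4) -
        (2 * (s : ℝ)⁻¹ + 18 * (s : ℝ)⁻¹ ^ 2 + 3 * (s : ℝ)⁻¹ ^ 4)) atTop
        (𝓝 (ε * (1 / 2) - (2 * 0 + 18 * 0 ^ 2 + 3 * 0 ^ 4))) :=
      (tendsto_const_nhds.mul (tendsto_lines_ratio ξ)).sub
        (((tendsto_const_nhds.mul tendsto_inv_nat).add
          (tendsto_const_nhds.mul (tendsto_inv_nat.pow 2))).add
          (tendsto_const_nhds.mul (tendsto_inv_nat.pow 4)))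
    have hpos : 0 < ε * (1 / 2) - (2 * 0 + 18 * 0 ^ 2 + 3 * 0 ^ 4 : ℝ) := by
      norm_num; exact hε
    filter_upwards [h1.eventually (eventually_gt_nhds hpos), eventually_gt_atTop 0] with s hgt hs H hH
    have hs' : (0 : ℝ) < (s : ℝ) := by exact_mod_cast hs
    have hb := symmDiff_bound (s := s) hξ hH
    have hb' : ((planeLines (Hset ξ s)).ncard : ℝ) ≤
        ((symmDiff (planeLines (Hset ξ s)) (planeLines H)).ncard : ℝ) +
          (2 * (s : ℝ) ^ 3 + 18 * (s : ℝ) ^ 2 + 3) := by exact_mod_cast hb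
    have h4 : 0 < (s : ℝ) ^ 4 := by positivity
    have h5 := mul_pos hgt h4
    have h6 : (ε * (((planeLines (Hset ξ s)).ncard : ℝ) / (s : ℝ) ^ 4) -
        (2 * (s : ℝ)⁻¹ + 18 * (s : ℝ)⁻¹ ^ 2 + 3 * (s : ℝ)⁻¹ ^ 4)) * (s : ℝ) ^ 4 =
        ε * ((planeLines (Hset ξ s)).ncard : ℝ) - (2 * (s : ℝ) ^ 3 + 18 * (s : ℝ) ^ 2 + 3) := by
      field_simp
    rw [h6] at h5
    linarith

end Pool.Agent.Results.MP_a8d5c3_co.ExactGenericityFails
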